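import Pool.Agent.Y466.KS.Stm

set_option autoImplicit false

namespace Pool.Agent.Y217.KS

open Matrix Pool.Agent.Y466.KS

theorem even_form {r : ℕ} (A : Matrix (Fin r) (Fin r) ℤ) (hs : A.IsSymm)
    (he : ∀ i, Even (A i i)) (x : Fin r → ℤ) : Even (x ⬝ᵥ A *ᵥ x) := by
  have h2 : x ⬝ᵥ A *ᵥ x = ∑ p : Fin r × Fin r, x p.1 * (A p.1 p.2 * x p.2) := by
    rw [Fintype.sum_prod_type]
    simp only [dotProduct, mulVec, Finset.mul_sum]
  rw [h2, ← ZMod.intCast_eq_zero_iff_even, Int.cast_sum]
  refine Finset.sum_involution (fun p _ => (p.2, p.1)) ?_ ?_ ?_ ?_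
  · intro p _
    have h3 : x p.2 * (A p.2 p.1 * x p.1) = x p.1 * (A p.1 p.2 * x p.2) := by
      rw [hs.apply p.1 p.2]; ring
    simp only [h3]
    exact CharTwo.add_self_eq_zero _
  · intro p _ hp heq
    apply hp
    have h4 : p.1 = p.2 := by
      have := congrArg Prod.fst heq
      exact this.symm
    rw [ZMod.intCast_eq_zero_iff_even, ← h4]
    exact ((he p.1).mul_right _).mul_left _
  · intro p _; exact Finset.mem_univ _
  · intro p _; rfl

theorem diag_form {r : ℕ} (A : Matrix (Fin r) (Fin r) ℤ) (hs : A.IsSymm) :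
    ∃ P : Matrix (Fin r) (Fin r) ℤ, P.det ≠ 0 ∧ ∀ i j, i ≠ j → (Pᵀ * A * P) i j = 0 := by
  set A' : Matrix (Fin r) (Fin r) ℚ := A.map (Int.cast : ℤ → ℚ) with hA'
  have hs' : A'.IsSymm := by
    ext i j
    simp only [hA', transpose_apply, map_apply, hs.apply i j]
  set B : LinearMap.BilinForm ℚ (Fin r → ℚ) := Matrix.toLinearMap₂' ℚ A' with hB
  have hBs : LinearMap.IsSymm B := by
    constructor
    intro x y
    simp only [hB, toLinearMap₂'_apply', RingHom.id_apply]
    rw [dotProduct_mulVec, dotProduct_comm, ← mulVec_transpose, hs'.eq]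
  obtain ⟨v, hv⟩ := LinearMap.BilinForm.exists_orthogonal_basis hBs
  have hfr : Module.finrank ℚ (Fin r → ℚ) = r := by simp
  set w : Module.Basis (Fin r) ℚ (Fin r → ℚ) := v.reindex (finCongr hfr) with hw
  have hwo : ∀ i j, i ≠ j → B (w i) (w j) = 0 := by
    intro i j hij
    simp only [hw, Module.Basis.reindex_apply]
    apply hv
    intro h
    exact hij ((finCongr hfr).symm.injective h)
  set Q0 : Matrix (Fin r) (Fin r) ℚ := Matrix.of (fun i j => w j i) with hQ0
  have hQd : Q0.det ≠ 0 := by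
    have h1 : Q0 = (Pi.basisFun ℚ (Fin r)).toMatrix w := by
      ext i j
      simp [hQ0, Module.Basis.toMatrix_apply]
    rw [h1]
    have := (Pi.basisFun ℚ (Fin r)).isUnit_det w
    have h2 := Module.Basis.det_apply (Pi.basisFun ℚ (Fin r)) w
    rw [← h2]
    exact this.ne_zero
  obtain ⟨b, hb⟩ := IsLocalization.exist_integer_multiples_of_finite (nonZeroDivisors ℤ)
    (fun p : Fin r × Fin r => Q0 p.1 p.2)
  choose z hz using hb
  have hb0 : (b : ℤ) ≠ 0 := nonZeroDivisors.ne_zero b.2
  set P : Matrix (Fin r) (Fin r) ℤ := Matrix.of (fun i j => z (i, j)) with hP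
  have hPc : P.map (Int.cast : ℤ → ℚ) = ((b : ℤ) : ℚ) • Q0 := by
    ext i j
    have := hz (i, j)
    simp only [hP, map_apply, of_apply, Matrix.smul_apply, smul_eq_mul]
    simpa using this
  have hmapf : ∀ M : Matrix (Fin r) (Fin r) ℤ, M.map (Int.cast : ℤ → ℚ) =
      (Int.castRingHom ℚ).mapMatrix M := fun M => rfl
  refine ⟨P, ?_, ?_⟩
  · intro h0
    have h1 : (P.map (Int.cast : ℤ → ℚ)).det = 0 := by
      rw [hmapf, ← RingHom.map_det, h0, map_zero]
    rw [hPc, det_smul] at h1
    exact (mul_ne_zero (pow_ne_zero _ (by exact_mod_cast hb0)) hQd) h1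
  · intro i j hij
    have h1 : ((Pᵀ * A * P).map (Int.cast : ℤ → ℚ)) i j = 0 := by
      rw [hmapf, map_mul, map_mul, ← hmapf, ← hmapf, ← hmapf, ← hA', transpose_map, hPc,
        transpose_smul, Matrix.smul_mul, Matrix.smul_mul, Matrix.mul_smul, Matrix.smul_apply,
        Matrix.smul_apply]
      have h2 : (Q0ᵀ * A' * Q0) i j = B (w i) (w j) := by
        rw [hB, toLinearMap₂'_apply', Matrix.mul_assoc, mul_apply]
        simp only [dotProduct, transpose_apply]
        apply Finset.sum_congr rfl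
        intro k _
        simp only [hQ0, of_apply, mul_apply, mulVec, dotProduct]
      rw [h2, hwo i j hij]
      simp
    simpa using h1

theorem sig_diag {r : ℕ} (A P : Matrix (Fin r) (Fin r) ℤ) (a : Fin r → ℤ) (hP : P.det ≠ 0)
    (h : Pᵀ * A * P = diagonal (fun i => 2 * a i)) : signature A = ∑ i, (a i).sign := by
  have hmapf : ∀ M : Matrix (Fin r) (Fin r) ℤ, M.map (Int.cast : ℤ → ℝ) =
      (Int.castRingHom ℝ).mapMatrix M := fun M => rfl
  set A' : Matrix (Fin r) (Fin r) ℝ := A.map (Int.cast : ℤ → ℝ) with hA'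
  set P' : Matrix (Fin r) (Fin r) ℝ := P.map (Int.cast : ℤ → ℝ) with hP'
  have hdet : IsUnit P'.det := by
    rw [hP', hmapf, ← RingHom.map_det]
    simpa using hP
  have hinv : Invertible P' := P'.invertibleOfIsUnitDet hdet
  have hd : P'ᵀ * A' * P' = diagonal (fun i => (2 * a i : ℝ)) := by
    have h1 := congrArg (fun M : Matrix (Fin r) (Fin r) ℤ => (Int.castRingHom ℝ).mapMatrix M) h
    simp only [map_mul] at h1
    rw [← hmapf, ← hmapf, ← hmapf, ← hmapf, ← hA', ← hP', transpose_map, ← hP'] at h1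
    rw [h1]
    ext i j
    by_cases hij : i = j
    · subst hij; simp
    · simp [diagonal_apply_ne _ hij]
  have hEq : QuadraticMap.Equivalent A'.toQuadraticForm'
      (QuadraticMap.weightedSumSquares ℝ (fun i => (2 * a i : ℝ))) := by
    refine QuadraticMap.Equivalent.symm ⟨{ toLinearEquiv := P'.toLinearEquiv' hinv, map_app' := ?_ }⟩
    intro x
    have h2 : (P'.toLinearEquiv' hinv) x = P' *ᵥ x := rfl
    simp only [QuadraticMap.weightedSumSquares_apply, smul_eq_mul]
    change A'.toQuadraticForm' ((P'.toLinearEquiv' hinv) x) = _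
    rw [h2]
    have h3 : A'.toQuadraticForm' (P' *ᵥ x) = x ⬝ᵥ (P'ᵀ * A' * P') *ᵥ x := by
      simp only [toQuadraticForm', LinearMap.BilinMap.toQuadraticMap_apply, toLinearMap₂'_apply']
      rw [← mulVec_mulVec, ← mulVec_mulVec, dotProduct_mulVec x, vecMul_transpose]
    rw [h3, hd]
    simp only [dotProduct, mulVec_diagonal]
    apply Finset.sum_congr rfl
    intro i _
    ring
  unfold signature
  rw [QuadraticForm.sigPos_of_equiv_weightedSumSquares hEq,
    QuadraticForm.sigNeg_of_equiv_weightedSumSquares hEq]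
  have hp : ({i | 0 < (2 * a i : ℝ)} : Set (Fin r)).ncard =
      (Finset.univ.filter (fun i => 0 < a i)).card := by
    rw [← Set.ncard_coe_finset]
    congr 1
    ext i
    simp
  have hn : ({i | (2 * a i : ℝ) < 0} : Set (Fin r)).ncard =
      (Finset.univ.filter (fun i => a i < 0)).card := by
    rw [← Set.ncard_coe_finset]
    congr 1
    ext i
    simp only [Set.mem_setOf_eq, Finset.coe_filter, Finset.mem_univ, true_and]
    constructor
    · intro h; by_contra hc; push Not at hc
      have : (0 : ℝ) ≤ a i := by exact_mod_cast hc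
      linarith
    · intro h
      have : (a i : ℝ) < 0 := by exact_mod_cast h
      linarith
  rw [hp, hn, Finset.card_filter, Finset.card_filter]
  push_cast
  rw [← Finset.sum_sub_distrib]
  apply Finset.sum_congr rfl
  intro i _
  rcases lt_trichotomy (a i) 0 with h | h | h
  · rw [Int.sign_eq_neg_one_of_neg h, if_neg (by omega), if_pos h]; rfl
  · rw [h]; simp
  · rw [Int.sign_eq_one_of_pos h, if_pos h, if_neg (by omega)]; rfl

theorem diag : DIAG := by
  intro r A hs he hdet
  obtain ⟨P, hP, hoff⟩ := diag_form A hs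
  have hev : ∀ i, Even ((Pᵀ * A * P) i i) := by
    intro i
    have h1 : (Pᵀ * A * P) i i = (fun k => P k i) ⬝ᵥ A *ᵥ (fun k => P k i) := by
      rw [Matrix.mul_assoc, mul_apply]
      simp only [dotProduct, transpose_apply, mul_apply, mulVec]
    rw [h1]
    exact even_form A hs he _
  have hD : Pᵀ * A * P = diagonal (fun i => 2 * ((Pᵀ * A * P) i i / 2)) := by
    ext i j
    by_cases hij : i = j
    · subst hij
      rw [diagonal_apply_eq]
      obtain ⟨k, hk⟩ := hev i
      rw [hk]
      omega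
    · rw [diagonal_apply_ne _ hij, hoff i j hij]
  refine ⟨P, fun i => (Pᵀ * A * P) i i / 2, hP, ?_, hD, sig_diag A P _ hP hD⟩
  intro i hi
  have h1 : (Pᵀ * A * P).det ≠ 0 := by
    rw [det_mul, det_mul, det_transpose]
    exact mul_ne_zero (mul_ne_zero hP hdet) hP
  rw [hD, det_diagonal] at h1
  exact h1 (Finset.prod_eq_zero (Finset.mem_univ i) (by simp only at hi; rw [hi, mul_zero]))

end Pool.Agent.Y217.KS
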